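import Mathlib

/-!
# A prime finite-dimensional algebra in a variety that is not a section of a generator

For every infinite field `k` (in particular for every algebraically closed field) there are
nonassociative `k`-algebras `A` and `A'` with one bilinear multiplication such that `A` is simple,
prime and two-dimensional, every identity of `A'` is an identity of `A`, but `A` is not isomorphic
to a section of `A'`.

Construction. For `t` in `k` let `B t` be the space `k × k` with the multiplication
`(a, b) (c, d) = (a c + b d, a d + t b c)`. Put `A = B 0` and let `A'` be the direct sum of the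
algebras `B t`, `t ≠ 0`. The value of a polynomial at given elements of `k × k` depends polynomially
on `t`; so identities of `A'` are identities of `A`. If `A` is a section of the direct sum, then it is
a section of some `B t` with `t ≠ 0`, because `A` is prime, and then it is isomorphic to `B t`. But
`A` and `B t` are not isomorphic: `(1, 0)` is the only left identity of `B t`, and multiplication by
it on the right has the eigenvalues `1` and `t`.
-/

set_option autoImplicit false

namespace Pool.Agent.Results.MP_2fa119_al.PrimeNotSection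

universe u v

section defs

variable (k : Type u) [Field k]

/-- The nonassociative polynomial `f` over `k` in the variables `0, 1, 2, …` is an identity of the
(not necessarily associative or unital) `k`-algebra `A`. -/
def IsIdentity (f : FreeNonUnitalNonAssocAlgebra k ℕ) (A : Type v) [NonUnitalNonAssocRing A]
    [Module k A] [IsScalarTower k A A] [SMulCommClass k A A] : Prop :=
  ∀ a : ℕ → A, FreeNonUnitalNonAssocAlgebra.lift k a f = 0

/-- The algebra `A` belongs to `var(A')`: every identity of `A'` is an identity of `A`. -/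
def InVar (A' A : Type v) [NonUnitalNonAssocRing A'] [Module k A'] [IsScalarTower k A' A']
    [SMulCommClass k A' A'] [NonUnitalNonAssocRing A] [Module k A] [IsScalarTower k A A]
    [SMulCommClass k A A] : Prop :=
  ∀ f : FreeNonUnitalNonAssocAlgebra k ℕ, IsIdentity k f A' → IsIdentity k f A

/-- A subspace `I` of the algebra `A` is an ideal if it contains all products with one factor in
`I`. -/
def IsIdeal {A : Type v} [NonUnitalNonAssocRing A] [Module k A] (I : Submodule k A) : Prop :=
  ∀ x ∈ I, ∀ a : A, a * x ∈ I ∧ x * a ∈ I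

/-- Any two nonzero ideals `I` and `J` of `A` contain elements `x` and `y` with `x * y ≠ 0`. -/
def IsPrimeAlg (A : Type v) [NonUnitalNonAssocRing A] [Module k A] : Prop :=
  ∀ I J : Submodule k A, IsIdeal k I → IsIdeal k J → I ≠ ⊥ → J ≠ ⊥ →
    ∃ x ∈ I, ∃ y ∈ J, x * y ≠ 0

/-- The algebra `A` is isomorphic to a section of `A'`, that is, to a quotient of a subalgebra `R`
of `A'`: there is a homomorphism from `R` onto `A`. -/
def IsSection (A' A : Type v) [NonUnitalNonAssocRing A'] [Module k A']
    [NonUnitalNonAssocRing A] [Module k A] : Prop :=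
  ∃ (R : NonUnitalSubalgebra k A') (φ : R →ₙₐ[k] A), Function.Surjective φ

end defs

/-! ### the algebras `B t` -/

/-- The algebra of all pairs `(a, b)` of elements of `R` with the componentwise addition and the
multiplication `(a, b) (c, d) = (a c + b d, a d + t b c)`. -/
@[ext] structure B (R : Type u) (t : R) : Type u where
  /-- first component -/
  a : R
  /-- second component -/
  b : R

namespace B

variable {R : Type u} [CommRing R] {t : R}

instance : Zero (B R t) := ⟨⟨0, 0⟩⟩
instance : Add (B R t) := ⟨fun x y => ⟨x.a + y.a, x.b + y.b⟩⟩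
instance : Neg (B R t) := ⟨fun x => ⟨-x.a, -x.b⟩⟩
instance : Sub (B R t) := ⟨fun x y => ⟨x.a - y.a, x.b - y.b⟩⟩
instance {k : Type u} [SMul k R] : SMul k (B R t) := ⟨fun c x => ⟨c • x.a, c • x.b⟩⟩
instance : SMul ℕ (B R t) := ⟨fun c x => ⟨c • x.a, c • x.b⟩⟩
instance : SMul ℤ (B R t) := ⟨fun c x => ⟨c • x.a, c • x.b⟩⟩
instance : Mul (B R t) := ⟨fun x y => ⟨x.a * y.a + x.b * y.b, x.a * y.b + t * x.b * y.a⟩⟩

/-- the pair of components -/
def toProd (x : B R t) : R × R := (x.a, x.b)

omit [CommRing R] in
theorem toProd_injective : Function.Injective (toProd (t := t)) := by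
  intro x y h
  have h1 : (x.a, x.b) = (y.a, y.b) := h
  exact B.ext (congrArg Prod.fst h1) (congrArg Prod.snd h1)

instance : AddCommGroup (B R t) :=
  toProd_injective.addCommGroup _ rfl (fun _ _ => rfl) (fun _ => rfl) (fun _ _ => rfl)
    (fun _ _ => rfl) (fun _ _ => rfl)

@[simp] theorem mul_a (x y : B R t) : (x * y).a = x.a * y.a + x.b * y.b := rfl
@[simp] theorem mul_b (x y : B R t) : (x * y).b = x.a * y.b + t * x.b * y.a := rfl
@[simp] theorem add_a (x y : B R t) : (x + y).a = x.a + y.a := rfl
@[simp] theorem add_b (x y : B R t) : (x + y).b = x.b + y.b := rfl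
@[simp] theorem sub_a (x y : B R t) : (x - y).a = x.a - y.a := rfl
@[simp] theorem sub_b (x y : B R t) : (x - y).b = x.b - y.b := rfl
@[simp] theorem neg_a (x : B R t) : (-x).a = -x.a := rfl
@[simp] theorem neg_b (x : B R t) : (-x).b = -x.b := rfl
@[simp] theorem zero_a : (0 : B R t).a = 0 := rfl
@[simp] theorem zero_b : (0 : B R t).b = 0 := rfl
omit [CommRing R] in
@[simp] theorem smul_a {k : Type u} [SMul k R] (c : k) (x : B R t) : (c • x).a = c • x.a := rfl
omit [CommRing R] in
@[simp] theorem smul_b {k : Type u} [SMul k R] (c : k) (x : B R t) : (c • x).b = c • x.b := rfl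

instance {k : Type u} [CommRing k] [Algebra k R] : Module k (B R t) where
  one_smul x := by ext <;> simp
  mul_smul c d x := by ext <;> simp [mul_smul]
  smul_zero c := by ext <;> simp
  smul_add c x y := by ext <;> simp
  add_smul c d x := by ext <;> simp [add_smul]
  zero_smul x := by ext <;> simp

instance : NonUnitalNonAssocRing (B R t) :=
  { (inferInstance : AddCommGroup (B R t)), (inferInstance : Mul (B R t)) with
    left_distrib := fun x y z => by
      ext
      · simp; ring
      · simp; ring
    right_distrib := fun x y z => by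
      ext
      · simp; ring
      · simp; ring
    zero_mul := fun x => by ext <;> simp
    mul_zero := fun x => by ext <;> simp }

instance {k : Type u} [CommRing k] [Algebra k R] : IsScalarTower k (B R t) (B R t) :=
  ⟨fun c x y => by
    ext
    · simp [Algebra.smul_def]; ring
    · simp [Algebra.smul_def]; ring⟩

instance {k : Type u} [CommRing k] [Algebra k R] : SMulCommClass k (B R t) (B R t) :=
  ⟨fun c x y => by
    ext
    · simp [Algebra.smul_def]; ring
    · simp [Algebra.smul_def]; ring⟩

end B

variable {k : Type u} [Field k]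

open Polynomial

/-- evaluation of the parameter -/
noncomputable def evB (t : k) : B k[X] X →ₙₐ[k] B k t where
  toFun x := ⟨x.a.eval t, x.b.eval t⟩
  map_smul' c x := by
    ext
    · simp
    · simp
  map_zero' := by
    ext <;> simp
  map_add' x y := by
    ext <;> simp
  map_mul' x y := by
    ext <;> simp

theorem evB_apply (t : k) (x : B k[X] X) : evB t x = ⟨x.a.eval t, x.b.eval t⟩ := rfl

/-- the value of a polynomial in `B t` depends polynomially on `t` -/
theorem lift_eq (t : k) (a b : ℕ → k) (f : FreeNonUnitalNonAssocAlgebra k ℕ) :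
    FreeNonUnitalNonAssocAlgebra.lift k (fun n => (⟨a n, b n⟩ : B k t)) f =
      evB t (FreeNonUnitalNonAssocAlgebra.lift k
        (fun n => (⟨C (a n), C (b n)⟩ : B k[X] X)) f) := by
  have : FreeNonUnitalNonAssocAlgebra.lift k (fun n => (⟨a n, b n⟩ : B k t)) =
      (evB t).comp (FreeNonUnitalNonAssocAlgebra.lift k
        (fun n => (⟨C (a n), C (b n)⟩ : B k[X] X))) := by
    apply FreeNonUnitalNonAssocAlgebra.hom_ext
    intro n
    rw [NonUnitalAlgHom.comp_apply]
    rw [FreeNonUnitalNonAssocAlgebra.lift_of_apply, FreeNonUnitalNonAssocAlgebra.lift_of_apply]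
    simp [evB_apply]
  rw [this]
  rfl

/-- the nonzero parameters -/
abbrev T (k : Type u) [Field k] : Type u := {t : k // t ≠ 0}

/-- the direct sum of the algebras `B t`, `t ≠ 0` -/
def S (k : Type u) [Field k] : NonUnitalSubalgebra k (∀ t : T k, B k (t : k)) where
  carrier := {f | {t | f t ≠ 0}.Finite}
  add_mem' := by
    intro a b ha hb
    refine (ha.union hb).subset ?_
    intro t ht
    by_contra h
    simp only [Set.mem_union, Set.mem_ofPred_eq, not_or, not_not] at h
    apply ht
    rw [Pi.add_apply, h.1, h.2, add_zero]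
  zero_mem' := by simp
  mul_mem' := by
    intro a b ha hb
    refine ha.subset ?_
    intro t ht h
    apply ht
    rw [Pi.mul_apply, h, zero_mul]
  smul_mem' := by
    intro c a ha
    refine ha.subset ?_
    intro t ht h
    apply ht
    rw [Pi.smul_apply, h, smul_zero]

theorem infinite_T [Infinite k] : {t : k | t ≠ 0}.Infinite := by
  have : {t : k | t ≠ 0} = ({0} : Set k)ᶜ := rfl
  rw [this]
  exact (Set.finite_singleton 0).infinite_compl

/-- the projection of the direct sum onto a summand -/
def pr (t : T k) : S k →ₙₐ[k] B k (t : k) where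
  toFun f := (f : ∀ t : T k, B k (t : k)) t
  map_smul' _ _ := rfl
  map_zero' := rfl
  map_add' _ _ := rfl
  map_mul' _ _ := rfl

/-- the element of the direct sum with one nonzero component -/
noncomputable def sg (t : T k) (x : B k (t : k)) : S k := by
  classical
  exact ⟨Pi.single t x, by
    refine (Set.finite_singleton t).subset ?_
    intro s hs
    by_contra h
    apply hs
    exact Pi.single_eq_of_ne (M := fun t : T k => B k (t : k)) h x⟩

theorem pr_sg (t : T k) (x : B k (t : k)) : pr t (sg t x) = x := by
  classical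
  exact Pi.single_eq_same (M := fun t : T k => B k (t : k)) t x

theorem inVar [Infinite k] : InVar k (S k) (B k 0) := by
  intro f hf a
  have h1 : ∀ t : k, t ≠ 0 → evB t (FreeNonUnitalNonAssocAlgebra.lift k
      (fun n => (⟨C (a n).a, C (a n).b⟩ : B k[X] X)) f) = 0 := by
    intro t ht
    rw [← lift_eq]
    have h2 := hf fun n => sg ⟨t, ht⟩ ⟨(a n).a, (a n).b⟩
    have h3 : (pr (⟨t, ht⟩ : T k)).comp (FreeNonUnitalNonAssocAlgebra.lift k
        fun n => sg ⟨t, ht⟩ ⟨(a n).a, (a n).b⟩) =
        FreeNonUnitalNonAssocAlgebra.lift k (fun n => (⟨(a n).a, (a n).b⟩ : B k t)) := by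
      apply FreeNonUnitalNonAssocAlgebra.hom_ext
      intro n
      rw [NonUnitalAlgHom.comp_apply, FreeNonUnitalNonAssocAlgebra.lift_of_apply,
        FreeNonUnitalNonAssocAlgebra.lift_of_apply, pr_sg]
    rw [← h3, NonUnitalAlgHom.comp_apply, h2, map_zero]
  have h2 : FreeNonUnitalNonAssocAlgebra.lift k a f = evB 0 (FreeNonUnitalNonAssocAlgebra.lift k
      (fun n => (⟨C (a n).a, C (a n).b⟩ : B k[X] X)) f) := by
    rw [← lift_eq]
  rw [h2]
  generalize FreeNonUnitalNonAssocAlgebra.lift k
      (fun n => (⟨C (a n).a, C (a n).b⟩ : B k[X] X)) f = P at h1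
  have e1 : P.a = 0 := by
    apply Polynomial.eq_zero_of_infinite_isRoot
    refine infinite_T.mono ?_
    intro t ht
    exact congrArg B.a (h1 t ht)
  have e2 : P.b = 0 := by
    apply Polynomial.eq_zero_of_infinite_isRoot
    refine infinite_T.mono ?_
    intro t ht
    exact congrArg B.b (h1 t ht)
  rw [evB_apply, e1, e2]
  ext <;> simp

/-- `B 0` is simple: the left identity lies in every nonzero ideal -/
theorem e_mem {I : Submodule k (B k 0)} (hI : IsIdeal k I) (h : I ≠ ⊥) :
    (⟨1, 0⟩ : B k 0) ∈ I := by
  obtain ⟨x, hx, hx0⟩ := Submodule.exists_mem_ne_zero_of_ne_bot h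
  by_cases hb : x.b = 0
  · have ha : x.a ≠ 0 := fun ha => hx0 (B.ext ha hb)
    have h1 := I.smul_mem (x.a)⁻¹ hx
    convert h1 using 1
    ext
    · simp [ha]
    · simp [hb]
  · have h1 := (hI x hx ⟨1, 0⟩).2
    have h2 := (hI _ (I.sub_mem hx h1) ⟨0, 1⟩).2
    have h3 := I.smul_mem (x.b)⁻¹ h2
    convert h3 using 1
    ext
    · simp [hb]
    · simp

theorem prime_B0 : IsPrimeAlg k (B k 0) := by
  intro I J hI hJ hI0 hJ0
  refine ⟨_, e_mem hI hI0, _, e_mem hJ hJ0, ?_⟩
  intro h
  have := congrArg B.a h
  simp at this

theorem finrank_B (t : k) : Module.finrank k (B k t) = 2 := by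
  let e : B k t ≃ₗ[k] k × k :=
    { toFun := fun x => (x.a, x.b)
      invFun := fun x => ⟨x.1, x.2⟩
      left_inv := fun _ => rfl
      right_inv := fun _ => rfl
      map_add' := fun _ _ => rfl
      map_smul' := fun _ _ => rfl }
  rw [e.finrank_eq]
  simp

theorem not_section : ¬ IsSection k (S k) (B k 0) := by
  rintro ⟨R, φ, hφ⟩
  obtain ⟨r1, h1⟩ := hφ ⟨1, 0⟩
  obtain ⟨r2, h2⟩ := hφ ⟨0, 1⟩
  have f_sub : ∀ x y : R, φ (x - y) = φ x - φ y := by
    intro x y
    have h : x - y = x + (-1 : k) • y := by
      apply Subtype.ext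
      apply Subtype.ext
      funext t
      change ((x : S k) : ∀ t : T k, B k (t : k)) t - ((y : S k) : ∀ t : T k, B k (t : k)) t =
        ((x : S k) : ∀ t : T k, B k (t : k)) t +
          (-1 : k) • ((y : S k) : ∀ t : T k, B k (t : k)) t
      ext
      · simp only [B.sub_a, B.add_a, B.smul_a, smul_eq_mul]; ring
      · simp only [B.sub_b, B.add_b, B.smul_b, smul_eq_mul]; ring
    rw [h, map_add, map_smul]
    ext
    · simp only [B.sub_a, B.add_a, B.smul_a, smul_eq_mul]; ring
    · simp only [B.sub_b, B.add_b, B.smul_b, smul_eq_mul]; ring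
  -- components
  let c : R → ∀ t : T k, B k (t : k) := fun r => ((r : S k) : ∀ t : T k, B k (t : k))
  have c_add : ∀ x y t, c (x + y) t = c x t + c y t := fun _ _ _ => rfl
  have c_sub : ∀ x y t, c (x - y) t = c x t - c y t := fun _ _ _ => rfl
  have c_mul : ∀ x y t, c (x * y) t = c x t * c y t := fun _ _ _ => rfl
  have c_smul : ∀ (a : k) x t, c (a • x) t = a • c x t := fun _ _ _ => rfl
  have c_inj : ∀ x, (∀ t, c x t = 0) → x = 0 := by
    intro x hx
    apply Subtype.ext
    apply Subtype.ext
    funext t
    exact hx t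
  let F : Set (T k) := {t | c r1 t ≠ 0} ∪ {t | c r2 t ≠ 0}
  have hF : F.Finite := Set.Finite.union ((r1 : S k).2) ((r2 : S k).2)
  let P1 : R → Prop := fun r => ∀ t, t ∉ F → c r t = 0
  have p1 : P1 r1 := by
    intro t ht
    by_contra h
    exact ht (Or.inl h)
  have p2 : P1 r2 := by
    intro t ht
    by_contra h
    exact ht (Or.inr h)
  have p_mul : ∀ x y, P1 x → P1 (x * y) := by
    intro x y hx t ht
    rw [c_mul, hx t ht, zero_mul]
  have p_sub : ∀ x y, P1 x → P1 y → P1 (x - y) := by
    intro x y hx hy t ht
    rw [c_sub, hx t ht, hy t ht, sub_zero]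
  have p_smul : ∀ (a : k) x, P1 x → P1 (a • x) := by
    intro a x hx t ht
    rw [c_smul, hx t ht, smul_zero]
  -- some projection is injective modulo the kernel
  have claimA : ∃ t, ∀ r, P1 r → c r t = 0 → φ r = 0 := by
    by_contra hcon
    push Not at hcon
    have hu : ∀ t, ∃ u, P1 u ∧ c u t = 0 ∧ φ u = ⟨1, 0⟩ := by
      intro t
      obtain ⟨r, hr1, hr2, hr3⟩ := hcon t
      by_cases hb : (φ r).b = 0
      · have ha : (φ r).a ≠ 0 := fun ha => hr3 (B.ext ha hb)
        refine ⟨((φ r).a)⁻¹ • r, p_smul _ _ hr1, by rw [c_smul, hr2, smul_zero], ?_⟩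
        rw [map_smul]
        ext
        · simp [ha]
        · simp [hb]
      · refine ⟨((φ r).b)⁻¹ • ((r - r * r1) * r2), p_smul _ _ (p_mul _ _
          (p_sub _ _ hr1 (p_mul _ _ hr1))), ?_, ?_⟩
        · rw [c_smul, c_mul, c_sub, c_mul, hr2, zero_mul, sub_zero, zero_mul, smul_zero]
        · rw [map_smul, map_mul, f_sub, map_mul, h1, h2]
          ext
          · simp [hb]
          · simp
    choose u hu1 hu2 hu3 using hu
    have hall : ∀ s : Finset (T k), ∃ x, P1 x ∧ φ x = ⟨1, 0⟩ ∧ ∀ t ∈ s, c x t = 0 := by
      intro s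
      classical
      induction s using Finset.induction_on with
      | empty => exact ⟨r1, p1, h1, fun t ht => absurd ht (Finset.notMem_empty t)⟩
      | insert t s _ ih =>
        obtain ⟨x, hx1, hx2, hx3⟩ := ih
        refine ⟨x * u t, p_mul _ _ hx1, ?_, ?_⟩
        · rw [map_mul, hx2, hu3]
          ext <;> simp
        · intro t' ht'
          rcases Finset.mem_insert.1 ht' with h | h
          · rw [h, c_mul, hu2, mul_zero]
          · rw [c_mul, hx3 t' h, zero_mul]
    obtain ⟨x, hx1, hx2, hx3⟩ := hall hF.toFinset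
    have hx0 : x = 0 := by
      apply c_inj
      intro t
      by_cases ht : t ∈ F
      · exact hx3 t (hF.mem_toFinset.2 ht)
      · exact hx1 t ht
    rw [hx0, map_zero] at hx2
    have := congrArg B.a hx2
    simp at this
  obtain ⟨t, ht⟩ := claimA
  have ht0 : (t : k) ≠ 0 := t.2
  -- the two vectors are independent
  have hind : ∀ p q : k, p • c r1 t + q • c r2 t = 0 → p = 0 ∧ q = 0 := by
    intro p q h
    have h3 := ht (p • r1 - (-q) • r2) (p_sub _ _ (p_smul _ _ p1) (p_smul _ _ p2)) (by
      rw [c_sub, c_smul, c_smul, neg_smul, sub_neg_eq_add, h])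
    rw [f_sub, map_smul, map_smul, h1, h2] at h3
    have e1 := congrArg B.a h3
    have e2 := congrArg B.b h3
    simp at e1 e2
    exact ⟨e1, e2⟩
  have hD : (c r1 t).a * (c r2 t).b - (c r1 t).b * (c r2 t).a ≠ 0 := by
    intro hD
    have e1 := hind (c r2 t).a (-(c r1 t).a) (by
      ext
      · simp; ring
      · simp; linear_combination -hD)
    have e2 := hind (c r2 t).b (-(c r1 t).b) (by
      ext
      · simp; linear_combination hD
      · simp; ring)
    have e3 := hind 1 0 (by
      ext
      · simpa using e1.2
      · simpa using e2.2)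
    exact one_ne_zero e3.1
  have hker : ∀ r, P1 r → φ r = 0 → c r t = 0 := by
    intro r hr hr0
    obtain ⟨Di, hDi⟩ : ∃ Di : k, Di * ((c r1 t).a * (c r2 t).b - (c r1 t).b * (c r2 t).a) = 1 :=
      ⟨_, inv_mul_cancel₀ hD⟩
    obtain ⟨p, hp⟩ : ∃ p : k, p = Di * ((c r t).a * (c r2 t).b - (c r t).b * (c r2 t).a) :=
      ⟨_, rfl⟩
    obtain ⟨q, hq⟩ : ∃ q : k, q = Di * ((c r1 t).a * (c r t).b - (c r1 t).b * (c r t).a) :=
      ⟨_, rfl⟩
    have e1 : c r t = p • c r1 t + q • c r2 t := by
      ext
      · simp only [B.add_a, B.smul_a, smul_eq_mul, hp, hq]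
        linear_combination (-(c r t).a) * hDi
      · simp only [B.add_b, B.smul_b, smul_eq_mul, hp, hq]
        linear_combination (-(c r t).b) * hDi
    have h3 := ht (r - p • r1 - q • r2) (p_sub _ _ (p_sub _ _ hr (p_smul _ _ p1))
      (p_smul _ _ p2)) (by
        rw [c_sub, c_sub, c_smul, c_smul, e1]
        abel)
    rw [f_sub, f_sub, map_smul, map_smul, h1, h2, hr0] at h3
    have e2 := congrArg B.a h3
    have e3 := congrArg B.b h3
    simp at e2 e3
    rw [e1, e2, e3, zero_smul, zero_smul, add_zero]
  have m11 : c r1 t * c r1 t = c r1 t := by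
    have := hker (r1 * r1 - r1) (p_sub _ _ (p_mul _ _ p1) p1) (by
      rw [f_sub, map_mul, h1]
      ext <;> simp)
    rw [c_sub, c_mul, sub_eq_zero] at this
    exact this
  have m12 : c r1 t * c r2 t = c r2 t := by
    have := hker (r1 * r2 - r2) (p_sub _ _ (p_mul _ _ p1) p2) (by
      rw [f_sub, map_mul, h1, h2]
      ext <;> simp)
    rw [c_sub, c_mul, sub_eq_zero] at this
    exact this
  have m21 : c r2 t * c r1 t = 0 := by
    have := hker (r2 * r1) (p_mul _ _ p2) (by
      rw [map_mul, h1, h2]
      ext <;> simp)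
    rwa [c_mul] at this
  -- the first vector is `(1, 0)`
  generalize c r1 t = x at *
  generalize c r2 t = y at *
  have q1 := congrArg B.a m11
  have q2 := congrArg B.b m11
  have q3 := congrArg B.a m12
  have q4 := congrArg B.b m12
  have q5 := congrArg B.a m21
  have q6 := congrArg B.b m21
  simp only [B.mul_a, B.mul_b, B.zero_a, B.zero_b] at q1 q2 q3 q4 q5 q6
  -- left multiplication by x is the identity
  have s1 : (x.a - 1) * (x.a * y.b - x.b * y.a) = 0 := by
    linear_combination y.b * q1 - x.b * q3
  have s2 : (t : k) * x.b * (x.a * y.b - x.b * y.a) = 0 := by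
    linear_combination y.b * q2 - x.b * q4
  have xa : x.a = 1 := by
    rcases mul_eq_zero.1 s1 with h | h
    · linear_combination h
    · exact absurd h hD
  have xb : x.b = 0 := by
    rcases mul_eq_zero.1 s2 with h | h
    · exact (mul_eq_zero.1 h).resolve_left ht0
    · exact absurd h hD
  rw [xa, xb] at q5 q6
  have ya : y.a = 0 := by linear_combination q5
  have yb : y.b = 0 := by
    have : (t : k) * y.b = 0 := by linear_combination q6
    exact (mul_eq_zero.1 this).resolve_left ht0
  apply hD
  rw [ya, yb]
  ring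

/-- **A prime algebra in a variety which is not a section of a generator.**  Over every infinite
field `k` (for instance every algebraically closed field) there are nonassociative `k`-algebras `A`
and `A'` such that `A` is two-dimensional and prime (indeed any two nonzero ideals contain elements
with nonzero product), `A` belongs to the variety generated by `A'`, and `A` is not isomorphic to a
section of `A'`. -/
theorem result (k : Type u) [Field k] [Infinite k] :
    ∃ (A A' : Type u) (_ : NonUnitalNonAssocRing A) (_ : Module k A) (_ : IsScalarTower k A A)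
      (_ : SMulCommClass k A A) (_ : NonUnitalNonAssocRing A') (_ : Module k A')
      (_ : IsScalarTower k A' A') (_ : SMulCommClass k A' A'),
      Module.finrank k A = 2 ∧ IsPrimeAlg k A ∧ InVar k A' A ∧ ¬ IsSection k A' A :=
  ⟨B k 0, S k, inferInstance, inferInstance, inferInstance, inferInstance, inferInstance,
    inferInstance, inferInstance, inferInstance, finrank_B 0, prime_B0, inVar, not_section⟩

end Pool.Agent.Results.MP_2fa119_al.PrimeNotSection
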